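import Pool.Agent.Lib.MP_91447a_gt.NoModel

open scoped Manifold ContDiff Topology
open Set Function Filter Pool.Agent.Lib.MP_91447a_gt

namespace Pool.Agent.Results.MP_91447a_gt.Counterexample

/-- A complete, s-proper Poisson manifold whose minimal stratum has non-abelian isotropy and
which is not a quotient of any product `N × 𝔨*` with `𝔨` non-zero semisimple. -/
theorem result :
    ∃ (E : Type) (_ : NormedAddCommGroup E) (_ : NormedSpace ℝ E) (_ : FiniteDimensional ℝ E)
      (M : Type) (_ : TopologicalSpace M) (_ : ChartedSpace E M) (π : M → Biv E),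
      IsManifold 𝓘(ℝ, E) ∞ M ∧ T2Space M ∧ SecondCountableTopology M ∧ ConnectedSpace M ∧
      IsPoisson π ∧ IsCompleteSProper π ∧
      (∃ S : Set M, IsClosed S ∧ S.Nonempty ∧ interior S = ∅ ∧ (∀ x ∈ S, NonAbelianAt π x) ∧
        ∀ x ∉ S, corank (π x) = 1) ∧
      ∀ (F : Type) [NormedAddCommGroup F] [NormedSpace ℝ F] (N : Type) [TopologicalSpace N]
        [ChartedSpace F N] (πN : N → Biv F)
        (𝔨 : Type) [LieRing 𝔨] [LieAlgebra ℝ 𝔨] [FiniteDimensional ℝ 𝔨]
        [LieAlgebra.IsSemisimple ℝ 𝔨] [Nontrivial 𝔨]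
        (V : Type) [NormedAddCommGroup V] [NormedSpace ℝ V] [FiniteDimensional ℝ V]
        (e : 𝔨 → Cov V) (Δ : Type) [Group Δ] [MulAction Δ N] [ContinuousConstSMul Δ N]
        [MulAction Δ V] (Φ : N × V → M), ¬ IsModel π πN e Δ Φ := by
  refine ⟨E7, inferInstance, inferInstance, inferInstance, MM, inferInstance, inferInstance, piM,
    inferInstance, inferInstance, inferInstance,
    inferInstance, isPoisson_piM, isCompleteSProper, ⟨{y | rr y = 0},
      isClosed_eq continuous_rr continuous_const, ⟨pM 0, by simp [rr_pM]⟩, ?_,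
      fun x hx => nonAbelianAt hx, fun x hx => finrank_ker_one hx⟩, ?_⟩
  · exact eq_empty_of_forall_notMem fun y hy =>
      not_eventually_zero y (mem_interior_iff_mem_nhds.1 hy)
  · intro F _ _ N _ _ πN 𝔨 _ _ _ _ _ V _ _ _ e Δ _ _ _ _ Φ
    exact not_isModel πN e Δ Φ

end Pool.Agent.Results.MP_91447a_gt.Counterexample
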